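import Pool.Agent.W787.PS.StmB

/-! PS-ALT (MP_577350_an): the alternative: quantisation or an L² bound. -/

open MeasureTheory Set Metric Filter Topology
open scoped ContDiff

noncomputable section

namespace Pool.Agent.W465.PSAlt
open Pool.Agent.W787.PS

/-- the best constant in the Palais-Smale condition -/
lemma exists_best {M : Type} [TopologicalSpace M] [MeasurableSpace M] (X : ClosedSurface M)
    (h : M → ℝ) (lam : ℝ) (u : M → ℝ) : ∃ e : ℝ, PSb X h lam 1 u →
      (0 ≤ e ∧ e ≤ 1 ∧ PSb X h lam e u ∧ ∀ e', 0 < e' → PSb X h lam e' u → e ≤ e') := by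
  by_cases hP : PSb X h lam 1 u
  swap
  · exact ⟨0, fun h' => absurd h' hP⟩
  set E : Set ℝ := {e | 0 ≤ e ∧ PSb X h lam e u} with hE
  have hbd : BddBelow E := ⟨0, fun e he => he.1⟩
  have h1 : (1 : ℝ) ∈ E := ⟨zero_le_one, hP⟩
  have hne : E.Nonempty := ⟨1, h1⟩
  refine ⟨sInf E, fun _ => ⟨le_csInf hne fun e he => he.1, csInf_le hbd h1, ⟨hP.smooth, hP.norm, ?_⟩,
    fun e' he' hp => csInf_le hbd ⟨he'.le, hp⟩⟩⟩
  intro φ hφ
  rcases (Real.sqrt_nonneg (X.h1sq φ)).eq_or_lt with h0 | h0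
  · have := hP.bd φ hφ
    rw [← h0, mul_zero] at this ⊢
    exact this
  · rw [← div_le_iff₀ h0]
    apply le_csInf hne
    intro e he
    rw [div_le_iff₀ h0]
    exact he.2.bd φ hφ

/-- the measure of a solution -/
def muS {M : Type} [TopologicalSpace M] [MeasurableSpace M] (X : ClosedSurface M)
    (h : M → ℝ) (lam : ℝ) (u : M → ℝ) : Measure M :=
  X.vol.withDensity (fun x => ENNReal.ofReal (lam * h x * Real.exp (u x)))

section
variable {M : Type} [TopologicalSpace M] [T2Space M] [CompactSpace M]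
  [MeasurableSpace M] [BorelSpace M] (X : ClosedSurface M)

lemma fin_vol : IsFiniteMeasure X.vol := ⟨by rw [X.vol_univ]; exact ENNReal.one_lt_top⟩

lemma integrable_cont {f : M → ℝ} (hf : Continuous f) : Integrable f X.vol := by
  have := fin_vol X
  exact hf.integrable_of_hasCompactSupport (HasCompactSupport.of_compactSpace f)

lemma muS_apply {h : M → ℝ} {lam : ℝ} {u : M → ℝ} (hh : Continuous h) (hu : Continuous u)
    (hpos : ∀ x, 0 < h x) (hlam : 0 < lam) {S : Set M} (hS : MeasurableSet S) :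
    muS X h lam u S = ENNReal.ofReal (∫ x in S, lam * h x * Real.exp (u x) ∂X.vol) := by
  unfold muS
  rw [withDensity_apply _ hS]
  have hint : Integrable (fun x => lam * h x * Real.exp (u x)) X.vol :=
    integrable_cont X ((continuous_const.mul hh).mul (Real.continuous_exp.comp hu))
  rw [ofReal_integral_eq_lintegral_ofReal hint.integrableOn]
  exact Eventually.of_forall fun x => by
    have := hpos x
    positivity

lemma muS_real {h : M → ℝ} {lam : ℝ} {u : M → ℝ} (hh : Continuous h) (hu : Continuous u)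
    (hpos : ∀ x, 0 < h x) (hlam : 0 < lam) {S : Set M} (hS : MeasurableSet S) :
    (muS X h lam u).real S = ∫ x in S, lam * h x * Real.exp (u x) ∂X.vol := by
  unfold Measure.real
  rw [muS_apply X hh hu hpos hlam hS, ENNReal.toReal_ofReal]
  exact integral_nonneg fun x => by
    have := hpos x
    positivity

/-- a chart image inside a given open set -/
lemma exists_small {κ : ℂ → M} {d : ℂ → ℝ} (hκ : IsDisc X κ d) {U : Set M} (hU : IsOpen U)
    (h0 : κ 0 ∈ U) : ∃ r : ℝ, 0 < r ∧ r ≤ 1 ∧ κ '' ball 0 r ⊆ U := by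
  have hc : ContinuousAt κ 0 := hκ.cont.continuousAt (ball_mem_nhds 0 (by norm_num))
  obtain ⟨r, hr, hrU⟩ := Metric.mem_nhds_iff.1 (hc (hU.mem_nhds h0))
  refine ⟨min r 1, lt_min hr one_pos, min_le_right _ _, ?_⟩
  rintro _ ⟨z, hz, rfl⟩
  exact hrU (ball_subset_ball (min_le_left _ _) hz)

lemma mass_eq {κ : ℂ → M} {d : ℂ → ℝ} (hκ : IsDisc X κ d) {h : M → ℝ} {lam : ℝ} {u : M → ℝ}
    (hh : Continuous h) (hu : Continuous u) (hpos : ∀ x, 0 < h x) (hlam : 0 < lam) {ρ : ℂ → ℝ}
    (hρ : ∀ z ∈ ball (0 : ℂ) 1, ρ z = lam * h (κ z) * Real.exp (u (κ z)) * d z) {r : ℝ}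
    (hr : r ≤ 1) : (muS X h lam u).real (κ '' ball 0 r) = ms ρ 0 r := by
  have h8 : ball (0 : ℂ) r ⊆ ball 0 8 := ball_subset_ball (by linarith)
  rw [muS_real X hh hu hpos hlam (hκ.isOpen _ isOpen_ball h8).measurableSet,
    (hκ.intg _ _ measurableSet_ball h8).2, ms]
  refine setIntegral_congr_fun measurableSet_ball fun z hz => ?_
  exact (hρ z (ball_subset_ball hr hz)).symm

end

lemma ms_mono {Λ R L ε : ℝ} {ρ g w : ℂ → ℝ} (h : IsDatum Λ R L ε ρ g w) {r s : ℝ} (hrs : r ≤ s) :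
    ms ρ 0 r ≤ ms ρ 0 s := by
  have hint : Integrable ρ := h.diff.continuous.integrable_of_hasCompactSupport h.supp
  exact setIntegral_mono_set hint.integrableOn (Eventually.of_forall fun x => h.nonneg x)
    (LE.le.eventuallyLE (ball_subset_ball hrs))

theorem alt (h1 : S_DISC) (h2 : S_TRU) (h3 : S_DATA) (h4 : S_MONO) (h5 : S_NSA) (h6 : S_L2B)
    (h7 : S_AMI) (h8 : S_NAV) (h9 : S_ABS) (h10 : S_CORE) (h11 : S_SMO) : S_ALT := by
  intro M _ _ _ _ _ _ X h lam hsm hpos hlam 𝒰 u hu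
  classical
  have hfinv := fin_vol X
  have hgood := hu 1 one_pos
  have hcont : ∀ v, X.Smooth v → Continuous v := (h11 M X).1
  have hhc : Continuous h := hcont h hsm
  choose ep hep using fun n => exists_best X h lam (u n)
  obtain ⟨A, hA, htru⟩ := h2 M X h lam hsm hpos hlam
  have hcex : ∀ n, ∃ c : ℝ, PSb X h lam 1 (u n) → ∫ x, |u n x - c| ∂X.vol ≤ A := by
    intro n
    by_cases hP : PSb X h lam 1 (u n)
    · obtain ⟨c, hc⟩ := htru (u n) 1 zero_le_one le_rfl hP
      exact ⟨c, fun _ => hc⟩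
    · exact ⟨0, fun h' => absurd h' hP⟩
  choose c hc using hcex
  have hdat : ∀ y : M, ∃ (κ : ℂ → M) (d : ℂ → ℝ) (L B : ℝ) (ρ g w : ℕ → ℂ → ℝ),
      IsDisc X κ d ∧ κ 0 = y ∧ 0 ≤ L ∧ IsSeq 𝒰 lam 1 L ρ g w ∧
      ∀ n, PSb X h lam 1 (u n) →
        (∀ z ∈ ball (0 : ℂ) 1, ρ n z = lam * h (κ z) * Real.exp (u n (κ z)) * d z) ∧
        |avg (fun z => Real.log (ρ n z)) 0 (1 / 2) - c n| ≤ B := by
    intro y
    obtain ⟨κ, d, hκ, hκ0, -⟩ := h1 M X y 1 one_pos
    obtain ⟨L, C, B, hL, hC, hD⟩ := h3 M X κ d hκ h lam A hsm hpos hlam hA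
    have hex : ∀ n, ∃ (ρ g w : ℂ → ℝ), PSb X h lam 1 (u n) → IsDatum lam 1 L (C * ep n) ρ g w ∧
        (∀ z ∈ ball (0 : ℂ) 1, ρ z = lam * h (κ z) * Real.exp (u n (κ z)) * d z) ∧
        |avg (fun z => Real.log (ρ z)) 0 (1 / 2) - c n| ≤ B := by
      intro n
      by_cases hP : PSb X h lam 1 (u n)
      · obtain ⟨he0, he1, hPe, -⟩ := hep n hP
        obtain ⟨ρ, g, w, hh⟩ := hD (u n) (ep n) (c n) he0 he1 hPe (hc n hP)
        exact ⟨ρ, g, w, fun _ => hh⟩
      · exact ⟨0, 0, 0, fun h' => absurd h' hP⟩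
    choose ρ g w hρ using hex
    refine ⟨κ, d, L, B, ρ, g, w, hκ, hκ0, hL, ?_, fun n hP => (hρ n hP).2⟩
    intro ε hε
    filter_upwards [hgood, hu (ε / C) (div_pos hε hC)] with n hP hP'
    obtain ⟨he0, he1, hPe, hmin⟩ := hep n hP
    refine h4 _ _ _ _ _ _ _ _ _ _ (hρ n hP).1 le_rfl le_rfl ?_
    have h5 : ep n ≤ ε / C := hmin _ (div_pos hε hC) hP'
    have h6 : C * ep n ≤ ε := by
      rw [le_div_iff₀ hC] at h5
      linarith
    exact pow_le_pow_left₀ (mul_nonneg hC.le he0) h6 2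
  choose κ d L B ρ g w hκ hκ0 hL hseq hρ using hdat
  -- the measures
  set μ : ℕ → Measure M := fun n => if PSb X h lam 1 (u n) then muS X h lam (u n) else 0 with hμ
  have hμg : ∀ n, PSb X h lam 1 (u n) → μ n = muS X h lam (u n) := fun n hP => if_pos hP
  have hμfin : ∀ n, IsFiniteMeasure (μ n) := by
    intro n
    by_cases hP : PSb X h lam 1 (u n)
    · rw [hμg n hP]
      refine ⟨?_⟩
      rw [muS_apply X hhc (hcont _ hP.smooth) hpos hlam MeasurableSet.univ]
      exact ENNReal.ofReal_lt_top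
    · have : μ n = 0 := if_neg hP
      rw [this]
      infer_instance
  have htot : ∀ n, PSb X h lam 1 (u n) → (μ n).real univ = lam := by
    intro n hP
    rw [hμg n hP, muS_real X hhc (hcont _ hP.smooth) hpos hlam MeasurableSet.univ,
      Measure.restrict_univ]
    have : ∀ x, lam * h x * Real.exp (u n x) = lam * (h x * Real.exp (u n x)) := fun x => by ring
    simp only [this]
    rw [integral_const_mul, hP.norm, mul_one]
  have hmass : ∀ (y : M) (r : ℝ), r ≤ 1 → ∀ n, PSb X h lam 1 (u n) →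
      (μ n).real (κ y '' ball 0 r) = ms (ρ y n) 0 r := by
    intro y r hr n hP
    rw [hμg n hP]
    exact mass_eq X (hκ y) hhc (hcont _ hP.smooth) hpos hlam (hρ y n hP).1 hr
  have hopen : ∀ (y : M) (r : ℝ), 0 < r → r ≤ 1 → IsOpen (κ y '' ball 0 r) ∧ y ∈ κ y '' ball 0 r := by
    intro y r hr hr1
    refine ⟨(hκ y).isOpen _ isOpen_ball (ball_subset_ball (by linarith)), ?_⟩
    exact ⟨0, mem_ball_self hr, hκ0 y⟩
  -- non-atoms have small discs
  have hnon : ∀ y : M, (¬ ∀ U, IsOpen U → y ∈ U → ∀ᶠ n in (𝒰 : Filter ℕ), Real.pi < (μ n).real U) →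
      ∃ r : ℝ, 0 < r ∧ r ≤ 1 ∧ ∀ᶠ n in (𝒰 : Filter ℕ), ms (ρ y n) 0 r ≤ Real.pi := by
    intro y hy
    push Not at hy
    obtain ⟨U, hU, hyU, hn⟩ := hy
    obtain ⟨r, hr, hr1, hrU⟩ := exists_small X (hκ y) hU (by rw [hκ0]; exact hyU)
    refine ⟨r, hr, hr1, ?_⟩
    filter_upwards [hgood, hn] with n hP hn'
    rw [← hmass y r hr1 n hP]
    have := hμfin n
    exact (measureReal_mono hrU).trans hn'
  by_cases hatom : ∃ y₀ : M, ∀ U, IsOpen U → y₀ ∈ U →
      ∀ᶠ n in (𝒰 : Filter ℕ), Real.pi < (μ n).real U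
  · -- an atom
    left
    obtain ⟨y₀, hy₀⟩ := hatom
    have h4pi : ∀ r, 0 < r → r < 1 → ∀ κ', 0 < κ' →
        ∀ᶠ n in (𝒰 : Filter ℕ), 4 * Real.pi - κ' ≤ ms (ρ y₀ n) 0 r := by
      intro r hr hr1 κ' hκ'
      by_contra hcon
      rw [← Ultrafilter.eventually_not] at hcon
      have hcon' : ∀ᶠ n in (𝒰 : Filter ℕ), ms (ρ y₀ n) 0 r ≤ 4 * Real.pi - κ' := by
        filter_upwards [hcon] with n hn
        exact (not_le.1 hn).le
      obtain ⟨s, hs, hs'⟩ := h5 𝒰 lam 1 (L y₀) (ρ y₀) (g y₀) (w y₀) one_pos (hL y₀) hlam.le (hseq y₀)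
        0 r (4 * Real.pi - κ') hr (by rw [norm_zero]; linarith) (by linarith) hcon' 1 one_pos
      obtain ⟨ho, hm⟩ := hopen y₀ (min s 1) (lt_min hs one_pos) (min_le_right _ _)
      have hev : ∀ᶠ n in (𝒰 : Filter ℕ), False := by
        filter_upwards [hgood, hs', hy₀ _ ho hm, hseq y₀ 1 one_pos] with n hP e1 e2 e3
        rw [hmass y₀ _ (min_le_right _ _) n hP] at e2
        have e4 := ms_mono e3 (min_le_left s 1)
        have := Real.pi_gt_three
        linarith
      exact hev.exists.elim fun _ h => h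
    have hcinf : ∀ A' : ℝ, ∀ᶠ n in (𝒰 : Filter ℕ), c n ≤ -A' := by
      intro A'
      have := h7 𝒰 lam 1 (L y₀) (ρ y₀) (g y₀) (w y₀) one_pos (hL y₀) hlam.le (hseq y₀) h4pi (1 / 2)
        (by norm_num) (by norm_num) (A' + B y₀)
      filter_upwards [hgood, this] with n hP hn
      have h6 := (abs_le.1 (hρ y₀ n hP).2).1
      linarith
    have havg : ∀ (y : M) (A' : ℝ), ∀ᶠ n in (𝒰 : Filter ℕ),
        avg (fun x => Real.log (ρ y n x)) 0 (1 / 2) ≤ -A' := by
      intro y A'
      filter_upwards [hgood, hcinf (A' + B y)] with n hP hn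
      have h6 := (abs_le.1 (hρ y n hP).2).2
      linarith
    obtain ⟨S, m, -, hS1, hS2, hS3⟩ := h9 M 𝒰 μ lam Real.pi hμfin
      (by filter_upwards [hgood] with n hP; exact (htot n hP).le) Real.pi_pos univ isCompact_univ
      (by
        intro y _
        by_cases hy : ∀ U, IsOpen U → y ∈ U → ∀ᶠ n in (𝒰 : Filter ℕ), Real.pi < (μ n).real U
        · right
          refine ⟨univ_mem, fun U hU hyU => ?_⟩
          filter_upwards [hy U hU hyU] with n hn
          exact hn.le
        · left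
          obtain ⟨r, hr, hr1, hrn⟩ := hnon y hy
          obtain ⟨ho, hm⟩ := hopen y (r / 4) (by linarith) (by linarith)
          refine ⟨κ y '' ball 0 (r / 4), ho, hm, ?_⟩
          have ht := h8 𝒰 lam 1 (L y) (ρ y) (g y) (w y) one_pos (hL y) hlam.le (hseq y) 0 (1 / 2)
            (by norm_num) (by rw [norm_zero]; norm_num) (havg y) 0 r Real.pi hr
            (by rw [norm_zero]; linarith) (by have := Real.pi_pos; linarith) hrn
          refine ht.congr' ?_
          filter_upwards [hgood] with n hP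
          exact (hmass y _ (by linarith) n hP).symm)
    have hsum : lam = ∑ y ∈ S, m y := by
      refine tendsto_nhds_unique ?_ hS3
      refine tendsto_const_nhds.congr' ?_
      filter_upwards [hgood] with n hP
      exact (htot n hP).symm
    have hk : ∀ y ∈ S, ∃ k : ℕ, m y = 8 * Real.pi * k := by
      intro y hy
      obtain ⟨U, hU, hyU, hV⟩ := hS2 y hy
      obtain ⟨R, hR, hR1, hRU⟩ := exists_small X (hκ y) hU (by rw [hκ0]; exact hyU)
      have hT : ∀ r, 0 < r → r < R → Tendsto (fun n => (μ n).real (κ y '' ball 0 r)) 𝒰 (𝓝 (m y)) := by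
        intro r hr hrR
        obtain ⟨ho, hm⟩ := hopen y r hr (by linarith)
        exact hV _ ho hm ((image_mono (ball_subset_ball hrR.le)).trans hRU)
      have hT' : ∀ r, 0 < r → r < R → Tendsto (fun n => ms (ρ y n) 0 r) 𝒰 (𝓝 (m y)) := by
        intro r hr hrR
        refine (hT r hr hrR).congr' ?_
        filter_upwards [hgood] with n hP
        exact hmass y _ (by linarith) n hP
      have hmpos : Real.pi ≤ m y := by
        obtain ⟨ho, hm⟩ := hopen y (R / 2) (by linarith) (by linarith)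
        exact ge_of_tendsto (hT (R / 2) (by linarith) (by linarith)) (hS1 y hy _ ho hm)
      refine h10 𝒰 lam R (L y) (ρ y) (g y) (w y) hR (hL y) hlam.le ?_ (m y)
        (lt_of_lt_of_le Real.pi_pos hmpos) hT'
      intro ε hε
      filter_upwards [hseq y ε hε] with n hn
      exact h4 _ _ _ _ _ _ _ _ _ _ hn hR1 le_rfl le_rfl
    choose! k hk using hk
    refine ⟨∑ y ∈ S, k y, ?_⟩
    rw [hsum, Finset.sum_congr rfl hk]
    push_cast
    rw [Finset.mul_sum]
  · -- no atoms
    right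
    push Not at hatom
    have hloc : ∀ y : M, ∃ (r C : ℝ), 0 < r ∧ r ≤ 1 ∧ ∀ᶠ n in (𝒰 : Filter ℕ),
        ∫ x in κ y '' ball 0 r, Real.exp (u n x) ^ 2 ∂X.vol ≤ C := by
      intro y
      obtain ⟨r, hr, hr1, hrn⟩ := hnon y (by
        push Not
        exact hatom y)
      obtain ⟨C, hC⟩ := h6 𝒰 lam 1 (L y) (ρ y) (g y) (w y) one_pos (hL y) hlam.le (hseq y) 0 r hr
        (by rw [norm_zero]; linarith) hrn
      obtain ⟨c₀, C₀, hc₀, hd⟩ := (hκ y).d_bd
      obtain ⟨x₀, -, hx₀⟩ := isCompact_univ.exists_isMinOn (univ_nonempty (α := M)) hhc.continuousOn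
      have hh0 : 0 < h x₀ := hpos x₀
      have hhm : ∀ x, h x₀ ≤ h x := fun x => hx₀ (mem_univ x)
      have hb8 : ball (0 : ℂ) (r / 4) ⊆ ball 0 8 := ball_subset_ball (by linarith)
      refine ⟨r / 4, C / (lam ^ 2 * h x₀ ^ 2 * c₀), by linarith, by linarith, ?_⟩
      filter_upwards [hgood, hC, hseq y 1 one_pos] with n hP hCn hdn
      rw [((hκ y).intg (fun x => Real.exp (u n x) ^ 2) _ measurableSet_ball hb8).2]
      have hK : 0 < lam ^ 2 * h x₀ ^ 2 * c₀ := by positivity
      rw [le_div_iff₀ hK]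
      refine le_trans ?_ hCn
      rw [mul_comm, ← integral_const_mul]
      have hint : IntegrableOn (fun z => Real.exp (u n (κ y z)) ^ 2 * d y z) (ball 0 (r / 4)) := by
        rw [← ((hκ y).intg (fun x => Real.exp (u n x) ^ 2) _ measurableSet_ball hb8).1]
        exact (integrable_cont X ((Real.continuous_exp.comp (hcont _ hP.smooth)).pow 2)).integrableOn
      have hint2 : IntegrableOn (fun z => ρ y n z ^ 2) (ball 0 (r / 4)) := by
        have h12 : Continuous (fun z => ρ y n z ^ 2) := (hdn.diff.continuous).pow 2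
        have h13 : HasCompactSupport (fun z => ρ y n z ^ 2) := by
          have := hdn.supp.comp_left (g := fun t : ℝ => t ^ 2) (by norm_num)
          exact this
        exact (h12.integrable_of_hasCompactSupport h13).integrableOn
      refine setIntegral_mono_on (hint.const_mul _) hint2 measurableSet_ball fun z hz => ?_
      have hz1 : z ∈ ball (0 : ℂ) 1 := ball_subset_ball (by linarith) hz
      rw [(hρ y n hP).1 z hz1]
      have hdz := hd z (hb8 hz)
      have hd0 : 0 < d y z := lt_of_lt_of_le hc₀ hdz.1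
      have e1 : h x₀ ^ 2 ≤ h (κ y z) ^ 2 := pow_le_pow_left₀ hh0.le (hhm _) 2
      calc lam ^ 2 * h x₀ ^ 2 * c₀ * (Real.exp (u n (κ y z)) ^ 2 * d y z)
          = lam ^ 2 * Real.exp (u n (κ y z)) ^ 2 * d y z * (h x₀ ^ 2 * c₀) := by ring
        _ ≤ lam ^ 2 * Real.exp (u n (κ y z)) ^ 2 * d y z * (h (κ y z) ^ 2 * d y z) := by
            apply mul_le_mul_of_nonneg_left _ (by positivity)
            exact mul_le_mul e1 hdz.1 hc₀.le (by positivity)
        _ = (lam * h (κ y z) * Real.exp (u n (κ y z)) * d y z) ^ 2 := by ring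
    choose r C hr hr1 hC using hloc
    obtain ⟨t, ht⟩ := isCompact_univ.elim_finite_subcover (fun y : M => κ y '' ball 0 (r y))
      (fun y => (hopen y (r y) (hr y) (hr1 y)).1)
      (fun y _ => mem_iUnion.2 ⟨y, (hopen y (r y) (hr y) (hr1 y)).2⟩)
    refine ⟨∑ y ∈ t, C y, ?_⟩
    have hall : ∀ᶠ n in (𝒰 : Filter ℕ), ∀ y ∈ t,
        ∫ x in κ y '' ball 0 (r y), Real.exp (u n x) ^ 2 ∂X.vol ≤ C y :=
      (eventually_all_finset t).2 fun y _ => hC y
    filter_upwards [hgood, hall] with n hP hn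
    have hfc : Continuous (fun x => Real.exp (u n x) ^ 2) :=
      (Real.continuous_exp.comp (hcont _ hP.smooth)).pow 2
    have hfi := integrable_cont X hfc
    have hmeas : ∀ y, MeasurableSet (κ y '' ball 0 (r y)) := fun y =>
      (hopen y (r y) (hr y) (hr1 y)).1.measurableSet
    calc ∫ x, Real.exp (u n x) ^ 2 ∂X.vol
        ≤ ∫ x, ∑ y ∈ t, (κ y '' ball 0 (r y)).indicator (fun x => Real.exp (u n x) ^ 2) x ∂X.vol := by
          refine integral_mono hfi (integrable_finsetSum _ fun y _ => hfi.indicator (hmeas y)) ?_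
          intro x
          obtain ⟨y, hy⟩ := mem_iUnion.1 (ht (mem_univ x))
          obtain ⟨hyt, hy⟩ := mem_iUnion.1 hy
          show Real.exp (u n x) ^ 2 ≤ _
          have h14 : (κ y '' ball 0 (r y)).indicator (fun x => Real.exp (u n x) ^ 2) x =
              Real.exp (u n x) ^ 2 := indicator_of_mem hy _
          rw [← h14]
          refine Finset.single_le_sum (f := fun y => (κ y '' ball 0 (r y)).indicator
            (fun x => Real.exp (u n x) ^ 2) x) (fun y _ => ?_) hyt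
          exact indicator_nonneg (fun _ _ => by positivity) _
      _ = ∑ y ∈ t, ∫ x in κ y '' ball 0 (r y), Real.exp (u n x) ^ 2 ∂X.vol := by
          rw [integral_finsetSum _ fun y _ => hfi.indicator (hmeas y)]
          exact Finset.sum_congr rfl fun y _ => integral_indicator (hmeas y)
      _ ≤ ∑ y ∈ t, C y := Finset.sum_le_sum hn

end Pool.Agent.W465.PSAlt
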